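import Pool.Agent.Helper1.TE.Goals2

/-!
# Project TE: the deterministic first phases of the machine (`FC0`)
-/

set_option autoImplicit false

namespace Pool.Agent.Helper88.TE

open Pool.Agent.Helper1.TE
open Pool.Agent.Helper65.LinSpace (dig tab nrec ifz eq01 le01 lt01 capPow Ctx)

section

variable (ok : ℕ → ℕ → ℕ) (tst : ℕ → ℕ) (mal : ℕ) (w : List Bool)

theorem nx0 (x : Sta) : (machM ok tst mal).nx w x 0 =
    nextN ok tst mal x (codeB w[addrM x]?) 0 := by
  simp [NumMach.nx, machM, nextM, cif]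

theorem step0 {x x' : Sta} (hx : (machM ok tst mal).Reach w x)
    (h : (machM ok tst mal).nx w x 0 = x') : (machM ok tst mal).Reach w x' :=
  Relation.ReflTransGen.tail hx ⟨0, by norm_num, h.symm⟩

theorem code_ne {i : ℕ} (h : i < w.length) : ∃ y, codeB w[i]? = y + 1 := by
  rw [List.getElem?_eq_getElem h]
  exact ⟨(w[i]).toNat, by simp [codeB, Nat.add_comm]⟩

theorem nx_0t (h : ℕ) (hl : w[h]? = some true) :
    (machM ok tst mal).nx w (hdr 0 h 0 0 0 0) 0 = hdr 0 (h + 1) 0 0 0 0 := by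
  rw [nx0, show addrM (hdr 0 h 0 0 0 0) = h from rfl, hl]
  rfl

theorem nx_0f (h : ℕ) (hl : w[h]? = some false) :
    (machM ok tst mal).nx w (hdr 0 h 0 0 0 0) 0 = hdr 1 h 0 0 0 0 := by
  rw [nx0, show addrM (hdr 0 h 0 0 0 0) = h from rfl, hl]
  rfl

theorem nx_1t (h b : ℕ) (hl : w[h + 1 + b]? = some true) :
    (machM ok tst mal).nx w (hdr 1 h b 0 0 0) 0 = hdr 1 h (b + 1) 0 0 0 := by
  rw [nx0, show addrM (hdr 1 h b 0 0 0) = h + 1 + b from rfl, hl]
  rfl

theorem nx_1f (h b : ℕ) (hl : w[h + 1 + b]? = some false) (hh : 1 ≤ h) (hb : 1 ≤ b)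
    (hok : ok h b ≠ 0) :
    (machM ok tst mal).nx w (hdr 1 h b 0 0 0) 0 = hdr 2 h b 0 1 0 := by
  rw [nx0, show addrM (hdr 1 h b 0 0 0) = h + 1 + b from rfl, hl]
  have h1 : h * b * ok h b ≠ 0 := by positivity
  change cif (h * b * ok h b) (cif mal rejS accS) (hdr 2 h b 0 1 0) = _
  rw [cif, if_neg h1]

theorem nx_2 (h b u W : ℕ) (hl : W < w.length) :
    (machM ok tst mal).nx w (hdr 2 h b u W 0) 0 =
      if h - u = 0 then hdr 3 h b 0 W 1 else hdr 2 h b (u + 1) (2 * W) 0 := by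
  rw [nx0, show addrM (hdr 2 h b u W 0) = W from rfl]
  obtain ⟨y, hy⟩ := code_ne w hl
  rw [hy]
  rfl

theorem nx_3 (h b u W U : ℕ) (hl : U < w.length) :
    (machM ok tst mal).nx w (hdr 3 h b u W U) 0 =
      if 2 * b - u = 0 then hdr 4 h b 0 W U else hdr 3 h b (u + 1) W (2 * U) := by
  rw [nx0, show addrM (hdr 3 h b u W U) = U from rfl]
  obtain ⟨y, hy⟩ := code_ne w hl
  rw [hy]
  rfl

theorem nx_4 (h b W U : ℕ) (hl : lenM h b W U = w.length) :
    (machM ok tst mal).nx w (hdr 4 h b 0 W U) 0 = hdr 5 h b 0 W U := by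
  rw [nx0, show addrM (hdr 4 h b 0 W U) = lenM h b W U from rfl, hl,
    List.getElem?_eq_none (le_refl _)]
  rfl

theorem nx_5 (h b W U : ℕ) (hl : lenM h b W U - 1 < w.length) :
    (machM ok tst mal).nx w (hdr 5 h b 0 W U) 0 = hdr 6 h b 0 1 0 := by
  rw [nx0, show addrM (hdr 5 h b 0 W U) = lenM h b W U - 1 from rfl]
  obtain ⟨y, hy⟩ := code_ne w hl
  rw [hy]
  rfl

theorem nx_6 (h b u W : ℕ) :
    (machM ok tst mal).nx w (hdr 6 h b u W 0) 0 =
      if EP h b - u = 0 then mainS h b 0 W 0 0 0 C0 else hdr 6 h b (u + 1) (2 * W) 0 := by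
  rw [nx0]
  rfl

end

/-- **FC0.** -/
theorem gFC0 : GoalFC0 := by
  intro ok tst mal w h b hF
  obtain ⟨⟨⟨p1, p2, p3⟩, p4, hh, hb, hok⟩, hlen⟩ := hF
  have hbl : blocks h b * b = (2 ^ h + (2 ^ h - 1) * 4 ^ b) * b := rfl
  have h2h : 2 ≤ 2 ^ h := by
    calc 2 = 2 ^ 1 := rfl
      _ ≤ 2 ^ h := Nat.pow_le_pow_right (by norm_num) hh
  have hW : 2 ^ h < w.length := by
    have : 2 ^ h * 1 ≤ (2 ^ h + (2 ^ h - 1) * 4 ^ b) * b :=
      Nat.mul_le_mul (Nat.le_add_right _ _) hb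
    omega
  have hU : 4 ^ b < w.length := by
    have h3 : 1 * 4 ^ b ≤ (2 ^ h - 1) * 4 ^ b := Nat.mul_le_mul_right _ (by omega)
    have : (2 ^ h + (2 ^ h - 1) * 4 ^ b) * 1 ≤ (2 ^ h + (2 ^ h - 1) * 4 ^ b) * b :=
      Nat.mul_le_mul_left _ hb
    omega
  have hlenM : lenM h b (2 ^ h) (4 ^ b) = w.length := by
    rw [hlen]; rfl
  -- mode 0
  have s0 : ∀ i ≤ h, (machM ok tst mal).Reach w (hdr 0 i 0 0 0 0) := by
    intro i
    induction i with
    | zero => intro _; exact Relation.ReflTransGen.refl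
    | succ i ih =>
      intro hi
      exact step0 ok tst mal w (ih (by omega)) (nx_0t ok tst mal w i (p1 i (by omega)))
  have s1 : ∀ i ≤ b, (machM ok tst mal).Reach w (hdr 1 h i 0 0 0) := by
    intro i
    induction i with
    | zero => intro _; exact step0 ok tst mal w (s0 h le_rfl) (nx_0f ok tst mal w h p2)
    | succ i ih =>
      intro hi
      exact step0 ok tst mal w (ih (by omega)) (nx_1t ok tst mal w h i (p3 i (by omega)))
  have s2 : ∀ u ≤ h, (machM ok tst mal).Reach w (hdr 2 h b u (2 ^ u) 0) := by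
    intro u
    induction u with
    | zero =>
      intro _
      exact step0 ok tst mal w (s1 b le_rfl) (nx_1f ok tst mal w h b p4 hh hb hok)
    | succ u ih =>
      intro hu
      have h3 : 2 ^ u ≤ 2 ^ h := Nat.pow_le_pow_right (by norm_num) (by omega)
      refine step0 ok tst mal w (ih (by omega)) ?_
      rw [nx_2 ok tst mal w h b u (2 ^ u) (by omega), if_neg (by omega), pow_succ, Nat.mul_comm]
  have s3 : ∀ u ≤ 2 * b, (machM ok tst mal).Reach w (hdr 3 h b u (2 ^ h) (2 ^ u)) := by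
    intro u
    induction u with
    | zero =>
      intro _
      refine step0 ok tst mal w (s2 h le_rfl) ?_
      rw [nx_2 ok tst mal w h b h (2 ^ h) hW, if_pos (by omega), pow_zero]
    | succ u ih =>
      intro hu
      have h3 : 2 ^ u ≤ 2 ^ (2 * b) := Nat.pow_le_pow_right (by norm_num) (by omega)
      have h4 : 2 ^ (2 * b) = 4 ^ b := by rw [pow_mul]; norm_num
      refine step0 ok tst mal w (ih (by omega)) ?_
      rw [nx_3 ok tst mal w h b u (2 ^ h) (2 ^ u) (by omega), if_neg (by omega), pow_succ 2 u,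
        Nat.mul_comm (2 ^ u) 2]
  have s4 : (machM ok tst mal).Reach w (hdr 4 h b 0 (2 ^ h) (4 ^ b)) := by
    have h4 : 2 ^ (2 * b) = 4 ^ b := by rw [pow_mul]; norm_num
    refine step0 ok tst mal w (s3 (2 * b) le_rfl) ?_
    rw [nx_3 ok tst mal w h b (2 * b) (2 ^ h) (2 ^ (2 * b)) (by omega), if_pos (by omega), h4]
  have s5 : (machM ok tst mal).Reach w (hdr 5 h b 0 (2 ^ h) (4 ^ b)) :=
    step0 ok tst mal w s4 (nx_4 ok tst mal w h b (2 ^ h) (4 ^ b) hlenM)
  have s6 : ∀ u ≤ EP h b, (machM ok tst mal).Reach w (hdr 6 h b u (2 ^ u) 0) := by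
    intro u
    induction u with
    | zero =>
      intro _
      refine step0 ok tst mal w s5 ?_
      rw [nx_5 ok tst mal w h b (2 ^ h) (4 ^ b) (by omega), pow_zero]
    | succ u ih =>
      intro hu
      refine step0 ok tst mal w (ih (by omega)) ?_
      rw [nx_6 ok tst mal w h b u (2 ^ u), if_neg (by omega), pow_succ 2 u,
        Nat.mul_comm (2 ^ u) 2]
  refine step0 ok tst mal w (s6 (EP h b) le_rfl) ?_
  rw [nx_6 ok tst mal w h b (EP h b) (2 ^ EP h b), if_pos (by omega)]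

end Pool.Agent.Helper88.TE
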